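import Pool.Agent.Q27.SE.Hyp

/-!
# HNN extensions over virtually cyclic subgroups of finite index in their commensurators
-/

set_option autoImplicit false

namespace Q27.SE

open SimpleGraph HNNExtension
open scoped Pointwise
open Pool.Agent.Helper270.Tree Pool.Agent.Helper270.HNN
open Q182.Cyl (ClosedA Est)
open Subgroup (Commensurable)
open Subgroup.Commensurable (commensurator)
open Q30.FJ (TorsionFree)

/-! ### commensurators and homomorphisms -/

theorem com_map_iff {B G : Type} [Group B] [Group G] {f : B →* G} (hf : Function.Injective f)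
    (X Y : Subgroup B) : Commensurable (X.map f) (Y.map f) ↔ Commensurable X Y := by
  unfold Commensurable
  rw [Subgroup.relIndex_map_map_of_injective _ _ hf, Subgroup.relIndex_map_map_of_injective _ _ hf]

theorem map_smul {B G : Type} [Group B] [Group G] (f : B →* G) (b : B) (X : Subgroup B) :
    (ConjAct.toConjAct b • X).map f = ConjAct.toConjAct (f b) • X.map f := by
  ext y
  rw [Subgroup.mem_pointwise_smul_iff_inv_smul_mem, ← ConjAct.toConjAct_inv, ConjAct.toConjAct_smul,
    inv_inv]
  constructor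
  · rintro ⟨x, hx, rfl⟩
    rw [SetLike.mem_coe, Subgroup.mem_pointwise_smul_iff_inv_smul_mem, ← ConjAct.toConjAct_inv,
      ConjAct.toConjAct_smul, inv_inv] at hx
    exact ⟨_, hx, by simp⟩
  · rintro ⟨x, hx, hy⟩
    refine ⟨b * x * b⁻¹, ?_, ?_⟩
    · rw [SetLike.mem_coe, Subgroup.mem_pointwise_smul_iff_inv_smul_mem, ← ConjAct.toConjAct_inv,
        ConjAct.toConjAct_smul, inv_inv]
      have : b⁻¹ * (b * x * b⁻¹) * b = x := by group
      rw [this]
      exact hx
    · rw [map_mul, map_mul, hy, map_inv]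
      group

theorem com_map {B G : Type} [Group B] [Group G] {f : B →* G} (hf : Function.Injective f)
    (X : Subgroup B) : f.range ⊓ commensurator (X.map f) = (commensurator X).map f := by
  ext y
  constructor
  · rintro ⟨⟨b, rfl⟩, h2⟩
    refine ⟨b, ?_, rfl⟩
    have h3 := (Subgroup.Commensurable.commensurator_mem_iff _ _).1 h2
    rw [← map_smul, com_map_iff hf] at h3
    exact (Subgroup.Commensurable.commensurator_mem_iff _ _).2 h3
  · rintro ⟨b, hb, rfl⟩
    refine ⟨⟨b, rfl⟩, ?_⟩
    have h3 := (Subgroup.Commensurable.commensurator_mem_iff _ _).1 hb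
    refine (Subgroup.Commensurable.commensurator_mem_iff _ _).2 ?_
    rw [← map_smul, com_map_iff hf]
    exact h3

theorem com_smul {G : Type} [Group G] (g : G) (X : Subgroup G) :
    commensurator (ConjAct.toConjAct g • X) = ConjAct.toConjAct g • commensurator X := by
  ext y
  rw [Subgroup.mem_pointwise_smul_iff_inv_smul_mem, ← ConjAct.toConjAct_inv, ConjAct.toConjAct_smul,
    inv_inv, Subgroup.Commensurable.commensurator_mem_iff,
    Subgroup.Commensurable.commensurator_mem_iff,
    Subgroup.Commensurable.commensurable_conj (ConjAct.toConjAct g⁻¹), smul_smul, smul_smul,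
    smul_smul, ← ConjAct.toConjAct_mul, ← ConjAct.toConjAct_mul, ← ConjAct.toConjAct_mul,
    inv_mul_cancel, ConjAct.toConjAct_one, one_smul]

theorem rel_smul {G : Type} [Group G] (g : G) (X S : Subgroup G)
    (h : X.relIndex (S ⊓ commensurator X) ≠ 0) :
    (ConjAct.toConjAct g • X).relIndex
      (ConjAct.toConjAct g • S ⊓ commensurator (ConjAct.toConjAct g • X)) ≠ 0 := by
  rw [com_smul, ← Subgroup.smul_inf, Subgroup.relIndex_pointwise_smul]
  exact h

/-! ### HNN extensions -/

section hnn

variable {B : Type} [Group B] {A A' : Subgroup B} {φ : A ≃* A'}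

theorem stab_range : MulAction.stabilizer (HNNExtension B A A' φ) (vt 1 : Vert φ) =
    (of : B →* HNNExtension B A A' φ).range := by
  ext g
  rw [MulAction.mem_stabilizer_iff, stab_one]
  constructor
  · rintro ⟨x, rfl⟩
    exact ⟨x, rfl⟩
  · rintro ⟨x, rfl⟩
    exact ⟨x, rfl⟩

theorem est_t : Est (HNNExtension B A A' φ) (vt 1 : Vert φ) (vt t) = A'.map of := by
  ext g
  rw [Est, Subgroup.mem_inf, MulAction.mem_stabilizer_iff, MulAction.mem_stabilizer_iff, stab_one,
    Subgroup.mem_map]
  constructor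
  · rintro ⟨⟨x, rfl⟩, h2⟩
    refine ⟨x, ?_, rfl⟩
    have := (fix_t (φ := φ) 1 x).mp (by rw [map_one, one_mul]; exact h2)
    simpa using this
  · rintro ⟨x, hx, rfl⟩
    refine ⟨⟨x, rfl⟩, ?_⟩
    have := (fix_t (φ := φ) 1 x).mpr (by simpa using hx)
    rwa [map_one, one_mul] at this

/-- edges of the tree -/
theorem edge_cases {v w : Vert φ} (h : (graph φ).Adj v w) : ∃ (k : HNNExtension B A A' φ)
    (X : Subgroup B), (X = A ∨ X = A') ∧ v = k • vt 1 ∧
      Est (HNNExtension B A A' φ) v w = ConjAct.toConjAct k • X.map of := by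
  obtain ⟨g, ⟨rfl, rfl⟩ | ⟨rfl, rfl⟩⟩ := one_orbit h
  · refine ⟨g, A, Or.inl rfl, rfl, ?_⟩
    rw [Q182.Cyl.Est_smul]
    congr 1
    exact stab_edge
  · refine ⟨g * t⁻¹, A', Or.inr rfl, ?_, ?_⟩
    · rw [mul_smul]
      congr 1
    · have h1 : g • (vt t⁻¹ : Vert φ) = (g * t⁻¹) • vt 1 := by
        rw [mul_smul]
        congr 1
      have h2 : g • (vt 1 : Vert φ) = (g * t⁻¹) • vt t := by
        rw [mul_smul, smul_vt (t⁻¹) t, inv_mul_cancel]
      rw [h1, h2, Q182.Cyl.Est_smul, est_t]

theorem exists_smul_vt (v : Vert φ) : ∃ k : HNNExtension B A A' φ, v = k • vt 1 := by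
  obtain ⟨g, rfl⟩ := exists_vt v
  exact ⟨g, by rw [smul_vt, mul_one]⟩

/-- **membership of HNN extensions** -/
theorem hnn_mem {C : ∀ (G : Type) [Group G], Prop} (hC : ClosedA C)
    (hmet : ∀ (G : Type) [Group G], derivedSeries G 2 = ⊥ → C G) (hB : C B)
    (hvc : ∀ X : Subgroup B, X = A ∨ X = A' → ∃ c ∈ X, (Subgroup.zpowers c).relIndex X ≠ 0)
    (hcm : ∀ X : Subgroup B, X = A ∨ X = A' → Infinite X → X.relIndex (commensurator X) ≠ 0) :
    C (HNNExtension B A A' φ) := by
  have hvcE : Q182.Cyl.VcEdges (HNNExtension B A A' φ) (graph φ) := by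
    intro v w hvw
    obtain ⟨k, X, hX, _, hE⟩ := edge_cases hvw
    obtain ⟨c, hc, hci⟩ := hvc X hX
    refine ⟨ConjAct.toConjAct k • of c, ?_, ?_⟩
    · rw [hE]
      exact Subgroup.smul_mem_pointwise_smul _ _ _ ⟨c, hc, rfl⟩
    · have h1 : Subgroup.zpowers (ConjAct.toConjAct k • (of c : HNNExtension B A A' φ)) =
          ConjAct.toConjAct k • (Subgroup.zpowers c).map of := by
        rw [MonoidHom.map_zpowers]
        exact (MonoidHom.map_zpowers (MulDistribMulAction.toMonoidEnd _ _ (ConjAct.toConjAct k))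
          (of c)).symm
      rw [h1, hE, Subgroup.relIndex_pointwise_smul,
        Subgroup.relIndex_map_map_of_injective _ _ (of_injective φ)]
      exact hci
  refine Q182.Hv.mainU hC hmet treeAct (Q182.Cyl.corF_of_vc hvcE) (Q182.Hv.comE_of_vc hvcE ?_) ?_
  · intro v w hvw hinf
    obtain ⟨k, X, hX, rfl, hE⟩ := edge_cases hvw
    rw [hE, Q182.Hv.st_smul]
    apply rel_smul
    rw [stab_range, com_map (of_injective φ),
      Subgroup.relIndex_map_map_of_injective _ _ (of_injective φ)]
    apply hcm X hX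
    rw [hE] at hinf
    have e : X ≃* (ConjAct.toConjAct k • X.map (of : B →* HNNExtension B A A' φ) :
        Subgroup (HNNExtension B A A' φ)) :=
      (X.equivMapOfInjective of (of_injective φ)).trans (Subgroup.equivSMul _ _)
    exact Infinite.of_injective _ e.symm.injective
  · intro v
    obtain ⟨k, rfl⟩ := exists_smul_vt v
    rw [Q182.Hv.st_smul, stab_range]
    have e : B ≃* (ConjAct.toConjAct k • (of : B →* HNNExtension B A A' φ).range :
        Subgroup (HNNExtension B A A' φ)) :=
      (MonoidHom.ofInjective (of_injective φ)).trans (Subgroup.equivSMul _ _)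
    exact hC.base.base.of_injective _ _ e.symm.toMonoidHom e.symm.injective hB

/-- torsion-free HNN extensions -/
theorem hnn_tf (hB : TorsionFree B) : TorsionFree (HNNExtension B A A' φ) := by
  intro z n hn hz
  by_cases hfix : ∀ v : Vert φ, z • v ≠ v
  · obtain ⟨L, l, hax⟩ := treeAct.exists_axis hfix
    exfalso
    apply zpow_ne treeAct hax (n := (n : ℤ)) (by omega)
    rw [zpow_natCast, hz]
  · push Not at hfix
    obtain ⟨v, hv⟩ := hfix
    obtain ⟨k, rfl⟩ := exists_smul_vt v
    have h1 : (k⁻¹ * z * k) • (vt 1 : Vert φ) = vt 1 := by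
      rw [mul_smul, mul_smul, hv, inv_smul_smul]
    obtain ⟨x, hx⟩ := (stab_one _).1 h1
    have h2 : z = k * of x * k⁻¹ := by
      rw [← hx]
      group
    have h3 : x ^ n = 1 := by
      apply of_injective φ
      rw [map_pow, ← hx, map_one]
      have h4 : k⁻¹ * z * k = k⁻¹ * z * (k⁻¹)⁻¹ := by rw [inv_inv]
      rw [h4, conj_pow, hz]
      group
    rw [h2, hB x n hn h3, map_one]
    group

theorem hnn_countable [Countable B] : Countable (HNNExtension B A A' φ) := by
  have h1 : Countable (FreeMonoid (B ⊕ Multiplicative ℤ)) :=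
    inferInstanceAs (Countable (List (B ⊕ Multiplicative ℤ)))
  have h2 : Function.Surjective (Monoid.Coprod.mk : FreeMonoid (B ⊕ Multiplicative ℤ) →* _) :=
    Monoid.Coprod.mk_surjective
  have h3 : Countable (Monoid.Coprod B (Multiplicative ℤ)) := h2.countable
  exact (Quotient.mk_surjective (s := (HNNExtension.con B A A' φ).toSetoid)).countable

end hnn

end Q27.SE
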