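import Pool.Agent.Q182.HvCyl
import Pool.Agent.Q182.TowDiv
import Pool.Agent.Helper270.Split

/-!
# Commensurators of hyperbolic elements
-/

set_option autoImplicit false

namespace Q27.SE

open SimpleGraph
open scoped Pointwise
open Pool.Agent.Helper270.Tree
open Subgroup (Commensurable)
open Subgroup.Commensurable (commensurator)

/-- a subgroup has finite index if finitely many values separate its cosets -/
theorem relIndex_of_fin {G α : Type} [Group G] [Finite α] (H M : Subgroup G) (f : M → α)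
    (hf : ∀ p q : M, f p = f q → (p : G)⁻¹ * q ∈ H) : H.relIndex M ≠ 0 := by
  have : Finite (M ⧸ H.subgroupOf M) := by
    refine Finite.of_injective (fun z : M ⧸ H.subgroupOf M => f z.out) ?_
    intro z w hzw
    have h1 := hf _ _ hzw
    rw [← z.out_eq', ← w.out_eq']
    exact QuotientGroup.eq.2 h1
  exact Subgroup.index_ne_zero_of_finite

section hyp

variable {G V : Type} [Group G] [MulAction G V] {T : SimpleGraph V}

theorem axis_pow (_h : TreeAct G T) {g : G} {L : ℤ → V} {l : ℕ} (hax : IsAxis T g L l) {n : ℕ}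
    (hn : 0 < n) : IsAxis T (g ^ n) L (n * l) where
  line := hax.line
  pos := Nat.mul_pos hn hax.pos
  smul i := by
    have h1 := hax.smul_zpow (n : ℤ) i
    rw [zpow_natCast] at h1
    rw [h1]
    push_cast
    rfl

theorem dist_zpow (h : TreeAct G T) (g : G) (z : V) (k : ℤ) :
    T.dist z (g ^ k • z) = T.dist z (g ^ k.natAbs • z) := by
  rcases Int.natAbs_eq k with hk | hk
  · conv_lhs => rw [hk]
    rw [zpow_natCast]
  · conv_lhs => rw [hk]
    rw [zpow_neg, zpow_natCast, ← h.dist_smul (g ^ k.natAbs) z ((g ^ k.natAbs)⁻¹ • z),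
      smul_inv_smul, SimpleGraph.dist_comm]

theorem disp_low (h : TreeAct G T) {g : G} {L : ℤ → V} {l : ℕ} (hax : IsAxis T g L l) {k : ℤ}
    (hk : k ≠ 0) (z : V) : k.natAbs * l ≤ T.dist z (g ^ k • z) := by
  rw [dist_zpow h]
  obtain ⟨i, _, h2⟩ := h.proj_between (axis_pow h hax (Int.natAbs_pos.2 hk)) z
  omega

theorem disp_mem (h : TreeAct G T) {g : G} {L : ℤ → V} {l : ℕ} (hax : IsAxis T g L l) {k : ℤ}
    (hk : k ≠ 0) {z : V} (hz : T.dist z (g ^ k • z) ≤ k.natAbs * l) : ∃ j, z = L j := by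
  rw [dist_zpow h] at hz
  exact h.mem_axis (axis_pow h hax (Int.natAbs_pos.2 hk)) hz

theorem disp_conj (h : TreeAct G T) {g : G} {L : ℤ → V} {l : ℕ} (hax : IsAxis T g L l) {n k : ℤ}
    {p : G} (hp : p * g ^ n * p⁻¹ = g ^ k) (i : ℤ) :
    T.dist (p • L i) (g ^ k • p • L i) = n.natAbs * l := by
  rw [← hp, ← mul_smul, mul_assoc, inv_mul_cancel, mul_one, mul_smul, h.dist_smul,
    hax.smul_zpow, hax.line.dist h.isTree]
  have : i - (i + n * (l : ℤ)) = -(n * l) := by ring
  rw [this, Int.natAbs_neg, Int.natAbs_mul, Int.natAbs_natCast]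

theorem conj_le (h : TreeAct G T) {g : G} {L : ℤ → V} {l : ℕ} (hax : IsAxis T g L l) {n k : ℤ}
    (hk : k ≠ 0) {p : G} (hp : p * g ^ n * p⁻¹ = g ^ k) : k.natAbs ≤ n.natAbs := by
  have h1 := disp_low h hax hk (p • L 0)
  rw [disp_conj h hax hp] at h1
  exact Nat.le_of_mul_le_mul_right h1 hax.pos

theorem conj_axis (h : TreeAct G T) {g : G} {L : ℤ → V} {l : ℕ} (hax : IsAxis T g L l) {n k : ℤ}
    (hn : n ≠ 0) (hk : k ≠ 0) {p : G} (hp : p * g ^ n * p⁻¹ = g ^ k) (i : ℤ) :
    ∃ j, p • L i = L j := by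
  have h1 : n.natAbs ≤ k.natAbs := by
    refine conj_le h hax hn (p := p⁻¹) ?_
    rw [← hp]
    group
  refine disp_mem h hax hk ?_
  rw [disp_conj h hax hp]
  exact Nat.mul_le_mul_right _ h1

theorem zpow_ne (h : TreeAct G T) {g : G} {L : ℤ → V} {l : ℕ} (hax : IsAxis T g L l) {n : ℤ}
    (hn : n ≠ 0) : g ^ n ≠ 1 := by
  intro h1
  have h2 := hax.smul_zpow n 0
  rw [h1, one_smul] at h2
  have h3 := hax.line.injective h.isTree h2
  have h4 := hax.pos
  have h5 : n * (l : ℤ) = 0 := by omega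
  rcases mul_eq_zero.1 h5 with h6 | h6
  · exact hn h6
  · omega

/-- **a hyperbolic element of a group acting with trivial edge stabilizers generates a subgroup of
finite index in its commensurator** -/
theorem comm_index (h : TreeAct G T)
    (hE : ∀ (g : G) (v w : V), T.Adj v w → g • v = v → g • w = w → g = 1) {g : G}
    (hg : ∀ v : V, g • v ≠ v) :
    (Subgroup.zpowers g).relIndex (commensurator (Subgroup.zpowers g)) ≠ 0 := by
  obtain ⟨L, l, hax⟩ := h.exists_axis hg
  have hpos := hax.pos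
  have : NeZero l := ⟨by omega⟩
  have key : ∀ p : commensurator (Subgroup.zpowers g), ∃ (s : Bool) (c : ℤ),
      ∀ i, (p : G) • L i = L (c + (if s then i else -i)) := by
    intro p
    have h1 := (Subgroup.Commensurable.commensurator_mem_iff _ _).1 p.2
    have h2 : (p : G) * g * (p : G)⁻¹ ∈ ConjAct.toConjAct (p : G) • Subgroup.zpowers g := by
      have := Subgroup.smul_mem_pointwise_smul g (ConjAct.toConjAct (p : G)) _
        (Subgroup.mem_zpowers g)
      rwa [ConjAct.toConjAct_smul] at this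
    obtain ⟨n, hn, _, hm⟩ := Subgroup.exists_pow_mem_of_relIndex_ne_zero h1.2 h2
    obtain ⟨k, hk⟩ := Subgroup.mem_zpowers_iff.1 (Subgroup.mem_inf.1 hm).1
    rw [conj_pow] at hk
    have hk' : (p : G) * g ^ (n : ℤ) * (p : G)⁻¹ = g ^ k := by
      rw [zpow_natCast, hk]
    have hn0 : (n : ℤ) ≠ 0 := by omega
    have hk0 : k ≠ 0 := by
      rintro rfl
      rw [zpow_zero] at hk'
      apply zpow_ne h hax hn0
      have h3 : g ^ (n : ℤ) = (p : G)⁻¹ * ((p : G) * g ^ (n : ℤ) * (p : G)⁻¹) * p := by group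
      rw [h3, hk']
      group
    rcases h.map_line hax.line (conj_axis h hax hn0 hk0 hk') with ⟨c, hc⟩ | ⟨c, hc⟩
    · exact ⟨true, c, fun i => by rw [hc i]; rfl⟩
    · exact ⟨false, c, fun i => by rw [hc i, sub_eq_add_neg]; rfl⟩
  choose s c hsc using key
  refine relIndex_of_fin _ _ (fun p => (s p, (c p : ZMod l))) ?_
  intro p q hpq
  rw [Prod.mk.injEq] at hpq
  obtain ⟨hs, hc⟩ := hpq
  obtain ⟨k, hk⟩ := (ZMod.intCast_eq_intCast_iff_dvd_sub _ _ _).1 hc
  obtain ⟨e, he⟩ : ∃ e : ℤ, ∀ i, (p : G) • g ^ e • L i = (q : G) • L i := by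
    refine ⟨if s p then k else -k, fun i => ?_⟩
    rw [hax.smul_zpow, hsc, hsc, ← hs]
    congr 1
    have hk' : c q = c p + l * k := by omega
    rw [hk']
    cases s p
    · simp only [Bool.false_eq_true, if_false]
      ring
    · simp only [if_true]
      ring
  have h1 : (q : G)⁻¹ * p * g ^ e = 1 := by
    refine hE _ (L 0) (L 1) (hax.line.adj 0) ?_ ?_
    · rw [mul_smul, mul_smul, he, inv_smul_smul]
    · rw [mul_smul, mul_smul, he, inv_smul_smul]
  refine Subgroup.mem_zpowers_iff.2 ⟨e, ?_⟩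
  have h2 : (p : G)⁻¹ * q = g ^ e * ((q : G)⁻¹ * p * g ^ e)⁻¹ := by group
  rw [h2, h1]
  group

end hyp

end Q27.SE
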