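import Pool.Agent.Q27.SE.Step
import Pool.Agent.Q27.TG.Main

/-!
# Embeddings in simple groups
-/

set_option autoImplicit false

namespace Q27.SE

open Pool.Agent.Y110.FJ (ClosedE)
open Pool.Agent.Y462.SS (Closed)
open Q182.Cyl (ClosedA)
open Q182.Tow
open Q30.FJ

/-- all metabelian groups are in `C` -/
def Met (C : ∀ (G : Type) [Group G], Prop) : Prop :=
  ∀ (G : Type) [Group G], derivedSeries G 2 = ⊥ → C G

/-- each nontrivial element is a product of two conjugates of any other one and one conjugate of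
its inverse -/
def USimple (M : Type) [Group M] : Prop :=
  ∀ a b : M, a ≠ 1 → b ≠ 1 →
    ∃ r s t : M, b = (r * a * r⁻¹) * (s * a * s⁻¹) * (t * a⁻¹ * t⁻¹)

theorem USimple.simple {M : Type} [Group M] [Nontrivial M] (h : USimple M) : IsSimpleGroup M := by
  refine ⟨fun N hN => ?_⟩
  by_cases h1 : N = ⊥
  · exact Or.inl h1
  · right
    obtain ⟨a, ha, hne⟩ : ∃ a ∈ N, a ≠ 1 := by
      by_contra hcon
      push Not at hcon
      exact h1 ((Subgroup.eq_bot_iff_forall N).2 hcon)
    rw [Subgroup.eq_top_iff']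
    intro b
    by_cases hb : b = 1
    · rw [hb]
      exact N.one_mem
    obtain ⟨r, s, t, hrst⟩ := h a b hne hb
    rw [hrst]
    exact N.mul_mem (N.mul_mem (hN.conj_mem _ ha _) (hN.conj_mem _ ha _))
      (hN.conj_mem _ (N.inv_mem ha) _)

/-! ### the class generated by a group -/

/-- the smallest class with the closure properties which contains `G` and the metabelian groups -/
def Hull (G : Type) [Group G] : ∀ (X : Type) [Group X], Prop := fun X _ =>
  ∀ C : ∀ (G : Type) [Group G], Prop, ClosedA C → Met C → C G → C X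

theorem hull_closedA (G : Type) [Group G] : ClosedA (Hull G) where
  base :=
    { base :=
        { int := fun _ hC _ _ => hC.base.base.int
          of_injective := fun A B _ _ f hf hB C hC hm hG =>
            hC.base.base.of_injective A B f hf (hB C hC hm hG)
          prod := fun A B _ _ hA hB C hC hm hG =>
            hC.base.base.prod A B (hA C hC hm hG) (hB C hC hm hG)
          coprod := fun A B _ _ hA hB C hC hm hG =>
            hC.base.base.coprod A B (hA C hC hm hG) (hB C hC hm hG)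
          finiteIndex := fun A _ K hK hA C hC hm hG =>
            hC.base.base.finiteIndex A K hK (hA C hC hm hG)
          colim := fun I _ _ hI A _ f L _ g h1 h2 h3 h4 h5 h6 C hC hm hG =>
            hC.base.base.colim I hI A f L g h1 h2 h3 h4 h5 (fun i => h6 i C hC hm hG) }
      ext := fun A Q _ _ π hπ hQ hV C hC hm hG =>
        hC.base.ext A Q π hπ (hQ C hC hm hG) (fun V hc => hV V hc C hC hm hG) }
  acyl := fun A F V _ _ _ π T k h1 h2 h3 h4 h5 h6 h7 C hC hm hG =>
    hC.acyl A F V π T k h1 h2 h3 h4 h5 (fun v => h6 v C hC hm hG) (fun W hc => h7 W hc C hC hm hG)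

theorem hull_met (G : Type) [Group G] : Met (Hull G) := fun X _ hX _ _ hm _ => hm X hX

theorem hull_self (G : Type) [Group G] : Hull G G := fun _ _ _ h => h

/-! ### the towers -/

variable {C : ∀ (G : Type) [Group G], Prop}

theorem simple_level (hC : ClosedA C) (hmet : Met C) (P : Prop) (K : Type) [Group K]
    (hK : C K ∧ (P → TorsionFree K) ∧ Countable K) :
    ∃ (L : Type) (_ : Group L) (i : K →* L), Function.Injective i ∧
      (C L ∧ (P → TorsionFree L) ∧ Countable L) ∧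
      ∀ a b : K, a ≠ 1 → b ≠ 1 → ∃ r s t : L,
        i b = (r * i a * r⁻¹) * (s * i a * s⁻¹) * (t * (i a)⁻¹ * t⁻¹) := by
  have := hK.2.2
  obtain ⟨q, hq⟩ := exists_surjective_nat (K × K)
  obtain ⟨L, iL, T, iT, f, ι, e, hf0, hfs, hPr, hSt, he, heι, hs, hlim⟩ := indexed_tower K
    (fun G _ => C G ∧ (P → TorsionFree G) ∧ Countable G)
    (fun j G G' _ _ f i => f (q j).1 ≠ 1 → f (q j).2 ≠ 1 → ∃ r s t : G',
      i (f (q j).2) = (r * i (f (q j).1) * r⁻¹) * (s * i (f (q j).1) * s⁻¹) *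
        (t * (i (f (q j).1))⁻¹ * t⁻¹))
    (by
      intro j G _ f hG
      obtain ⟨G', iG', i, h1, h2, h3, h4, h5⟩ := step G (f (q j).1) (f (q j).2)
      exact ⟨G', iG', i, h1, ⟨h4 C hC hmet hG.1, fun h => h3 (hG.2.1 h), h2 hG.2.2⟩, h5⟩) hK
  have hfe : ∀ n (x : K), e n (f n x) = e 0 (f 0 x) := by
    intro n x
    induction n with
    | zero => rfl
    | succ n ih => rw [hfs, MonoidHom.comp_apply, heι, ih]
  have hfinj : ∀ n, Function.Injective (f n) := by
    intro n x y hxy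
    apply hf0
    apply he 0
    rw [← hfe n, ← hfe n, hxy]
  refine ⟨L, iL, (e 0).comp (f 0), (he 0).comp hf0, ⟨hlim C hC.base.base fun n => (hPr n).1,
    fun h => tf_lim e he hs fun n => (hPr n).2.1 h, countable_lim e hs fun n => (hPr n).2.2⟩, ?_⟩
  intro a b ha hb
  obtain ⟨j, hj⟩ := hq (a, b)
  have h1 := hSt j
  rw [hj] at h1
  obtain ⟨r, s, t, hrst⟩ := h1 (fun h => ha (hfinj j (h.trans (map_one _).symm)))
    (fun h => hb (hfinj j (h.trans (map_one _).symm)))
  refine ⟨e (j + 1) r, e (j + 1) s, e (j + 1) t, ?_⟩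
  have h2 := congrArg (e (j + 1)) hrst
  simp only [map_mul, map_inv, heι, hfe] at h2
  exact h2

theorem root_opt (hC : ClosedE C) (P : Prop) (K : Type) [Group K]
    (hK : C K ∧ (P → TorsionFree K) ∧ Countable K) :
    ∃ (L : Type) (_ : Group L) (i : K →* L), Function.Injective i ∧
      (C L ∧ (P → TorsionFree L) ∧ Countable L) ∧
      (P → ∀ (g : K) (n : ℕ), 0 < n → ∃ h : L, h ^ n = i g) := by
  by_cases hP : P
  · obtain ⟨L, iL, i, h1, h2, h3⟩ := root_level hC K ⟨hK.1, hK.2.1 hP, hK.2.2⟩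
    exact ⟨L, iL, i, h1, ⟨h2.1, fun _ => h2.2.1, h2.2.2⟩, fun _ => h3⟩
  · exact ⟨K, inferInstance, MonoidHom.id K, Function.injective_id, hK, fun h => absurd h hP⟩

/-- **embedding in simple groups** -/
theorem embed (hC : ClosedA C) (hmet : Met C) (G : Type) [Group G] [Countable G] (hG : C G) :
    ∃ (M : Type) (_ : Group M) (i : G →* M), Function.Injective i ∧ C M ∧ Countable M ∧
      USimple M ∧ Binate M ∧
      (TorsionFree G → TorsionFree M ∧ ∀ (g : M) (n : ℕ), 0 < n → ∃ h : M, h ^ n = g) := by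
  obtain ⟨L, iL, T, iT, ι, e, i, hi, hPr, hSt, he, heι, hs, hlim⟩ := tower
    (fun K _ => C K ∧ (TorsionFree G → TorsionFree K) ∧ Countable K)
    (fun K K' _ _ f => (∀ a b : K, a ≠ 1 → b ≠ 1 → ∃ r s t : K',
        f b = (r * f a * r⁻¹) * (s * f a * s⁻¹) * (t * (f a)⁻¹ * t⁻¹)) ∧
      (TorsionFree G → ∀ (g : K) (n : ℕ), 0 < n → ∃ h : K', h ^ n = f g) ∧
      ∃ (φ : K →* K') (u : K'), ∀ h, f h = u * φ h * u⁻¹ * (φ h)⁻¹)
    (by
      intro K _ hK
      obtain ⟨K₁, iK₁, j₁, hj₁, hK₁, h1⟩ := simple_level hC hmet _ K hK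
      obtain ⟨K₂, iK₂, j₂, hj₂, hK₂, h2⟩ := root_opt hC.base _ K₁ hK₁
      have hc := hK₂.2.2
      refine ⟨EC K₂, inferInstance, ((at0 K₂).comp j₂).comp j₁, ((at0_inj K₂).comp hj₂).comp hj₁,
        ⟨ec_mem hC.base K₂ hK₂.1, fun h => ec_tf (hK₂.2.1 h), ec_countable K₂⟩, ?_, ?_,
        (stp K₂).comp (j₂.comp j₁), shi K₂, fun h => at0_eq K₂ (j₂ (j₁ h))⟩
      · intro a b ha hb
        obtain ⟨r, s, t, h3⟩ := h1 a b ha hb
        refine ⟨at0 K₂ (j₂ r), at0 K₂ (j₂ s), at0 K₂ (j₂ t), ?_⟩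
        rw [MonoidHom.comp_apply, h3]
        simp only [map_mul, map_inv, MonoidHom.comp_apply]
      · intro hP g n hn
        obtain ⟨h, hh⟩ := h2 hP (j₁ g) n hn
        exact ⟨at0 K₂ h, by rw [← map_pow, hh]; rfl⟩) G ⟨hG, fun h => h, inferInstance⟩
  refine ⟨L, iL, (e 0).comp i, (he 0).comp hi, hlim C hC.base.base fun n => (hPr n).1,
    countable_lim e hs fun n => (hPr n).2.2, ?_, binate_lim ι e he heι hs fun n => (hSt n).2.2,
    fun hP => ⟨tf_lim e he hs fun n => (hPr n).2.1 hP, ?_⟩⟩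
  · intro a b ha hb
    have hmono : ∀ n m, n ≤ m → (e n).range ≤ (e m).range := by
      intro n m hnm
      induction m, hnm using Nat.le_induction with
      | base => exact le_rfl
      | succ m hm ih =>
        refine ih.trans ?_
        rintro _ ⟨x, rfl⟩
        exact ⟨ι m x, heι m x⟩
    obtain ⟨n, x, rfl⟩ := hs a
    obtain ⟨m, y, rfl⟩ := hs b
    obtain ⟨x', hx'⟩ := hmono n (max n m) (le_max_left _ _) ⟨x, rfl⟩
    obtain ⟨y', hy'⟩ := hmono m (max n m) (le_max_right _ _) ⟨y, rfl⟩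
    rw [← hx'] at ha ⊢
    rw [← hy'] at hb ⊢
    obtain ⟨r, s, t, h3⟩ := (hSt (max n m)).1 x' y' (fun h => ha (by rw [h, map_one]))
      (fun h => hb (by rw [h, map_one]))
    refine ⟨e _ r, e _ s, e _ t, ?_⟩
    have h2 := congrArg (e (max n m + 1)) h3
    simp only [map_mul, map_inv, heι] at h2
    exact h2
  · intro g n hn
    obtain ⟨m, x, rfl⟩ := hs g
    obtain ⟨h, hh⟩ := (hSt m).2.1 hP x n hn
    exact ⟨e (m + 1) h, by rw [← map_pow, hh, heι]⟩

end Q27.SE
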