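import Pool.Agent.Q27.SE.Hnn

/-!
# One step of the embedding in a simple group
-/

set_option autoImplicit false

namespace Q27.SE

open SimpleGraph HNNExtension
open scoped Pointwise
open Pool.Agent.Helper270.Tree Pool.Agent.Helper270.HNN
open Q182.Cyl (ClosedA Est)
open Subgroup (Commensurable)
open Subgroup.Commensurable (commensurator)
open Q30.FJ (TorsionFree)

section base

variable {G : Type} [Group G]

/-- the free product of `G` and an infinite cyclic group -/
abbrev FZ (G : Type) [Group G] : Type :=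
  HNNExtension G (⊥ : Subgroup G) ⊥ (MulEquiv.refl _)

theorem fz_edge (g : FZ G) (v w : Vert (MulEquiv.refl (⊥ : Subgroup G)))
    (h : (graph (MulEquiv.refl (⊥ : Subgroup G))).Adj v w) (hv : g • v = v) (hw : g • w = w) :
    g = 1 := by
  obtain ⟨k, X, hX, _, hE⟩ := edge_cases h
  have hX' : X = ⊥ := by rcases hX with h | h <;> exact h
  have h1 : g ∈ Est (FZ G) v w := ⟨hv, hw⟩
  rw [hE, hX', Subgroup.map_bot, Subgroup.smul_bot, Subgroup.mem_bot] at h1
  exact h1

/-- the element `b x a x⁻¹` -/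
def wd (a b : G) : FZ G := of b * (t * of a * t⁻¹)

theorem wd_hyp {a b : G} (ha : a ≠ 1) (hb : b ≠ 1)
    (v : Vert (MulEquiv.refl (⊥ : Subgroup G))) : wd a b • v ≠ v := by
  have hne : ∀ {c : G}, c ≠ 1 → (of c : FZ G) ≠ 1 := by
    intro c hc h
    apply hc
    apply of_injective (MulEquiv.refl (⊥ : Subgroup G))
    rw [map_one]
    exact h
  have hadj : (graph (MulEquiv.refl (⊥ : Subgroup G))).Adj (vt 1) (vt t) := by
    have := adj_vt (1 : FZ G)
    rwa [one_mul] at this
  have h1 : (of b : FZ G) • (vt 1 : Vert (MulEquiv.refl (⊥ : Subgroup G))) = vt 1 :=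
    (stab_one _).2 ⟨b, rfl⟩
  have h2 : (t * of a * t⁻¹ : FZ G) • (vt t : Vert (MulEquiv.refl (⊥ : Subgroup G))) = vt t := by
    rw [smul_vt, inv_mul_cancel_right, vt_mul_of]
  refine treeAct.no_fixed_path
    (fun i => if i = 0 then (vt 1 : Vert (MulEquiv.refl (⊥ : Subgroup G))) else vt t) (n := 1)
    one_pos ?_ ?_ h1 h2 ?_ ?_ v
  · intro i hi
    have : i = 0 := by omega
    subst this
    exact hadj
  · intro i hi
    omega
  · intro h3
    exact hne hb (fz_edge _ _ _ hadj h1 h3)
  · intro h3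
    have h4 := fz_edge (t * of a * t⁻¹ : FZ G) _ _ hadj h3 h2
    apply hne ha
    have h5 : (of a : FZ G) = t⁻¹ * (t * of a * t⁻¹) * t := by group
    rw [h5, h4]
    group

theorem hyp_inj {g : FZ G} (hg : ∀ v : Vert (MulEquiv.refl (⊥ : Subgroup G)), g • v ≠ v) :
    Function.Injective (zpowersHom (FZ G) g) := by
  obtain ⟨L, l, hax⟩ := treeAct.exists_axis hg
  rw [injective_iff_map_eq_one]
  intro x hx
  rw [zpowersHom_apply] at hx
  by_contra hne
  have h0 : x.toAdd ≠ 0 := fun h => hne (by rw [← ofAdd_toAdd x, h]; rfl)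
  exact zpow_ne treeAct hax h0 hx

theorem range_eq (g : FZ G) : (zpowersHom (FZ G) g).range = Subgroup.zpowers g := by
  ext x
  constructor
  · rintro ⟨n, rfl⟩
    exact ⟨n.toAdd, rfl⟩
  · rintro ⟨n, rfl⟩
    exact ⟨Multiplicative.ofAdd n, rfl⟩

theorem mem_rg (g : FZ G) : g ∈ (zpowersHom (FZ G) g).range :=
  ⟨Multiplicative.ofAdd 1, zpow_one g⟩

/-- one step -/
theorem step (G : Type) [Group G] (a b : G) :
    ∃ (H : Type) (_ : Group H) (i : G →* H), Function.Injective i ∧ (Countable G → Countable H) ∧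
      (TorsionFree G → TorsionFree H) ∧
      (∀ C : ∀ (G : Type) [Group G], Prop, ClosedA C →
        (∀ (G : Type) [Group G], derivedSeries G 2 = ⊥ → C G) → C G → C H) ∧
      (a ≠ 1 → b ≠ 1 → ∃ r s t : H,
        i b = (r * i a * r⁻¹) * (s * i a * s⁻¹) * (t * (i a)⁻¹ * t⁻¹)) := by
  by_cases hab : a ≠ 1 ∧ b ≠ 1
  swap
  · exact ⟨G, inferInstance, MonoidHom.id G, Function.injective_id, fun h => h, fun h => h,
      fun C _ _ h => h, fun h1 h2 => absurd ⟨h1, h2⟩ hab⟩
  obtain ⟨ha, hb⟩ := hab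
  have h1 := hyp_inj (wd_hyp ha ha)
  have h2 := hyp_inj (wd_hyp ha hb)
  let φ : (zpowersHom (FZ G) (wd a a)).range ≃* (zpowersHom (FZ G) (wd a b)).range :=
    (MonoidHom.ofInjective h1).symm.trans (MonoidHom.ofInjective h2)
  have hφ : φ ⟨wd a a, mem_rg _⟩ =
      ⟨wd a b, mem_rg _⟩ := by
    have h3 : (⟨wd a a, mem_rg _⟩ : (zpowersHom (FZ G) (wd a a)).range) =
        MonoidHom.ofInjective h1 (Multiplicative.ofAdd 1) := by
      apply Subtype.ext
      exact (zpow_one (wd a a)).symm
    rw [h3]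
    show MonoidHom.ofInjective h2 ((MonoidHom.ofInjective h1).symm _) = _
    rw [MulEquiv.symm_apply_apply]
    apply Subtype.ext
    exact zpow_one (wd a b)
  have hconj : (of (wd a b) : HNNExtension (FZ G) _ _ φ) = t * of (wd a a) * t⁻¹ := by
    have h3 := equiv_eq_conj (φ := φ) ⟨wd a a, mem_rg _⟩
    rw [hφ] at h3
    exact h3
  have hbot : ∀ X : Subgroup G, X = ⊥ ∨ X = ⊥ → X = ⊥ := fun X h => by rcases h with h | h <;> exact h
  refine ⟨HNNExtension (FZ G) _ _ φ, inferInstance, (of : FZ G →* _).comp of,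
    (of_injective φ).comp (of_injective _), ?_, ?_, ?_, ?_⟩
  · intro h3
    have h4 : Countable (FZ G) := hnn_countable
    exact hnn_countable
  · intro h3
    exact hnn_tf (hnn_tf h3)
  · intro C hC hmet hG
    have hF : C (FZ G) := by
      refine hnn_mem hC hmet hG ?_ ?_
      · intro X hX
        rw [hbot X hX]
        exact ⟨1, Subgroup.mem_bot.2 rfl, by
          rw [Subgroup.relIndex_bot_right]
          exact one_ne_zero⟩
      · intro X hX hinf
        rw [hbot X hX] at hinf
        exact absurd (inferInstance : Finite (⊥ : Subgroup G)) (not_finite_iff_infinite.2 hinf)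
    refine hnn_mem hC hmet hF ?_ ?_
    · intro X hX
      have : ∃ g : FZ G, X = Subgroup.zpowers g := by
        rcases hX with rfl | rfl
        · exact ⟨_, range_eq _⟩
        · exact ⟨_, range_eq _⟩
      obtain ⟨g, rfl⟩ := this
      exact ⟨g, Subgroup.mem_zpowers g, by
        rw [Subgroup.relIndex_self]
        exact one_ne_zero⟩
    · intro X hX _
      rcases hX with rfl | rfl
      · rw [range_eq]
        exact comm_index treeAct fz_edge (wd_hyp ha ha)
      · rw [range_eq]
        exact comm_index treeAct fz_edge (wd_hyp ha hb)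
  · intro _ _
    refine ⟨t, t * of t, of t, ?_⟩
    have e : ∀ c : G, (of (wd a c) : HNNExtension (FZ G) _ _ φ) =
        of (of c) * (of t * of (of a) * (of t)⁻¹) := by
      intro c
      show (of (of c * (t * of a * t⁻¹)) : HNNExtension (FZ G) _ _ φ) = _
      rw [map_mul, map_mul, map_mul, map_inv]
    rw [e, e] at hconj
    show (of (of b) : HNNExtension (FZ G) _ _ φ) = _
    have h3 : (of (of b) : HNNExtension (FZ G) _ _ φ) =
        (of (of b) * (of t * of (of a) * (of t)⁻¹)) * (of t * of (of a) * (of t)⁻¹)⁻¹ := by group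
    rw [h3, hconj]
    show _ = (t * of (of a) * t⁻¹) * (t * of t * of (of a) * (t * of t)⁻¹) *
      (of t * (of (of a))⁻¹ * (of t)⁻¹)
    group

end base

end Q27.SE
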